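import Pool.Agent.W770.KP.Stm

set_option autoImplicit false

open scoped Classical

namespace Pool.Agent.W947.KP

open Pool.Agent.W770.KP

lemma tangent (r : ℝ) (hr : 1 ≤ r) (x y : ℝ) (hy : 0 ≤ y) (hyx : y ≤ x) :
    x ^ r ≤ y ^ r + r * (x - y) * x ^ (r - 1) := by
  have hx : 0 ≤ x := hy.trans hyx
  rcases eq_or_lt_of_le hx with h0 | h0
  · have hy0 : y = 0 := le_antisymm (hyx.trans h0.symm.le) hy
    subst h0
    subst hy0
    simp
  · have h1 : 1 + r * (y / x - 1) ≤ (1 + (y / x - 1)) ^ r := by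
      apply one_add_mul_self_le_rpow_one_add _ hr
      have : 0 ≤ y / x := div_nonneg hy hx
      linarith
    have h2 : (1 + (y / x - 1)) ^ r = y ^ r / x ^ r := by
      rw [← Real.div_rpow hy hx]
      congr 1
      ring
    rw [h2, le_div_iff₀ (Real.rpow_pos_of_pos h0 r)] at h1
    have h3 : x ^ r = x ^ (r - 1) * x := by
      rw [← Real.rpow_add_one h0.ne']
      congr 1
      ring
    have h4 : (1 + r * (y / x - 1)) * x ^ r = x ^ r + r * (y - x) * x ^ (r - 1) := by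
      rw [h3]
      field_simp
    rw [h4] at h1
    linarith

lemma geo (w : ℤ → ℝ) (hw0 : ∀ l, 0 ≤ w l) (hw : ∀ l, 2 * w l ≤ w (l + 1)) (S : Finset ℤ) :
    ∀ m : ℤ, (∀ x ∈ S, x ≤ m) → ∑ l ∈ S, w l ≤ 2 * w m := by
  have hmono : Monotone w := by
    apply monotone_int_of_le_succ
    intro l
    have := hw l
    have := hw0 l
    linarith
  induction S using Finset.induction_on_max with
  | empty =>
    intro m _
    have := hw0 m
    simp only [Finset.sum_empty]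
    linarith
  | insert b T hb ih =>
    intro m hm
    have hbT : b ∉ T := fun h => lt_irrefl _ (hb b h)
    rw [Finset.sum_insert hbT]
    have h1 := ih (b - 1) (fun x hx => by have := hb x hx; omega)
    have h2 := hw (b - 1)
    rw [sub_add_cancel] at h2
    have h3 : w b ≤ w m := hmono (hm b (Finset.mem_insert_self _ _))
    linarith

lemma main_sum (r : ℝ) (hr : 1 ≤ r) (a w : ℤ → ℝ) (ha0 : ∀ l, 0 ≤ a l) (hw0 : ∀ l, 0 ≤ w l)
    (hw : ∀ l, 2 * w l ≤ w (l + 1)) (S : Finset ℤ) :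
    (∀ l ∈ S, a l ≤ w l) →
    (∑ l ∈ S, a l) ^ r ≤ r * 2 ^ (r - 1) * ∑ l ∈ S, a l * (w l) ^ (r - 1) := by
  induction S using Finset.induction_on_max with
  | empty =>
    intro _
    simp only [Finset.sum_empty, mul_zero]
    rw [Real.zero_rpow (by linarith)]
  | insert b T hb ih =>
    intro h
    have hbT : b ∉ T := fun h => lt_irrefl _ (hb b h)
    have ih' := ih (fun l hl => h l (Finset.mem_insert_of_mem hl))
    have hsum : ∑ l ∈ insert b T, a l ≤ 2 * w b := by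
      calc ∑ l ∈ insert b T, a l ≤ ∑ l ∈ insert b T, w l := Finset.sum_le_sum h
        _ ≤ 2 * w b := by
          apply geo w hw0 hw
          intro x hx
          rcases Finset.mem_insert.mp hx with rfl | hx
          · exact le_rfl
          · exact (hb x hx).le
    rw [Finset.sum_insert hbT] at hsum ⊢
    rw [Finset.sum_insert hbT]
    have hy : 0 ≤ ∑ l ∈ T, a l := Finset.sum_nonneg (fun l _ => ha0 l)
    have ht := tangent r hr (a b + ∑ l ∈ T, a l) (∑ l ∈ T, a l) hy (by have := ha0 b; linarith)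
    have h1 : (a b + ∑ l ∈ T, a l) ^ (r - 1) ≤ 2 ^ (r - 1) * (w b) ^ (r - 1) := by
      rw [← Real.mul_rpow (by norm_num) (hw0 b)]
      apply Real.rpow_le_rpow _ hsum (by linarith)
      have := ha0 b
      linarith
    have h2 : r * (a b + ∑ l ∈ T, a l - ∑ l ∈ T, a l) * (a b + ∑ l ∈ T, a l) ^ (r - 1)
        ≤ r * a b * (2 ^ (r - 1) * (w b) ^ (r - 1)) := by
      have : (a b + ∑ l ∈ T, a l - ∑ l ∈ T, a l) = a b := by ring
      rw [this]
      apply mul_le_mul_of_nonneg_left h1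
      have := ha0 b
      positivity
    calc (a b + ∑ l ∈ T, a l) ^ r
        ≤ (∑ l ∈ T, a l) ^ r
          + r * (a b + ∑ l ∈ T, a l - ∑ l ∈ T, a l) * (a b + ∑ l ∈ T, a l) ^ (r - 1) := ht
      _ ≤ r * 2 ^ (r - 1) * ∑ l ∈ T, a l * (w l) ^ (r - 1)
          + r * a b * (2 ^ (r - 1) * (w b) ^ (r - 1)) := add_le_add ih' h2
      _ = r * 2 ^ (r - 1) * (a b * (w b) ^ (r - 1) + ∑ l ∈ T, a l * (w l) ^ (r - 1)) := by ring

theorem PLL : S_PLL := by
  intro n k hk hkn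
  have hk0 : (0:ℝ) < k := by exact_mod_cast hk
  have hnk : (k:ℝ) < n := by exact_mod_cast hkn
  have hr : 1 ≤ (n:ℝ) / (k:ℝ) := by
    rw [le_div_iff₀ hk0]
    linarith
  refine ⟨(n:ℝ) / (k:ℝ) * 2 ^ ((n:ℝ) / (k:ℝ) - 1), ?_, ?_⟩
  · have h1 : 0 < (n:ℝ) / (k:ℝ) := by linarith
    positivity
  · intro Λ u D hu hD hDD huD
    have h4 : (0:ℝ) < 4 := by norm_num
    set a : ℤ → ℝ := fun l => (4:ℝ) ^ (l * ((k:ℤ) + 1)) * u l with ha
    set w : ℤ → ℝ := fun l => (4:ℝ) ^ (l * (k:ℤ)) * D l with hwdef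
    have ha0 : ∀ l, 0 ≤ a l := fun l => mul_nonneg (zpow_nonneg h4.le _) (hu l)
    have hw0 : ∀ l, 0 ≤ w l := fun l => mul_nonneg (zpow_nonneg h4.le _) (hD l)
    have hw : ∀ l, 2 * w l ≤ w (l + 1) := by
      intro l
      simp only [hwdef]
      have e1 : (4:ℝ) ^ ((l + 1) * (k:ℤ)) = (4:ℝ) ^ (l * (k:ℤ)) * (4:ℝ) ^ k := by
        rw [add_mul, one_mul, zpow_add₀ h4.ne', zpow_natCast]
      rw [e1]
      have e2 : (4:ℝ) ≤ (4:ℝ) ^ k := by
        calc (4:ℝ) = 4 ^ 1 := by norm_num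
          _ ≤ 4 ^ k := pow_le_pow_right₀ (by norm_num) hk
      have e3 : (0:ℝ) < (4:ℝ) ^ (l * (k:ℤ)) := zpow_pos h4 _
      have e4 := hDD l
      have e5 := hD l
      have e6 := hD (l + 1)
      have e7 : 2 * D l ≤ 4 ^ k * D (l + 1) := by
        calc 2 * D l ≤ 2 * (2 * D (l + 1)) := by linarith
          _ = 4 * D (l + 1) := by ring
          _ ≤ 4 ^ k * D (l + 1) := mul_le_mul_of_nonneg_right e2 e6
      calc 2 * ((4:ℝ) ^ (l * (k:ℤ)) * D l) = (4:ℝ) ^ (l * (k:ℤ)) * (2 * D l) := by ring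
        _ ≤ (4:ℝ) ^ (l * (k:ℤ)) * (4 ^ k * D (l + 1)) := mul_le_mul_of_nonneg_left e7 e3.le
        _ = (4:ℝ) ^ (l * (k:ℤ)) * 4 ^ k * D (l + 1) := by ring
    have haw : ∀ l ∈ Λ, a l ≤ w l := by
      intro l hl
      simp only [ha, hwdef]
      have e1 : (4:ℝ) ^ (l * ((k:ℤ) + 1)) = (4:ℝ) ^ (l * (k:ℤ)) * (4:ℝ) ^ l := by
        rw [mul_add, mul_one, zpow_add₀ h4.ne']
      rw [e1, mul_assoc]
      exact mul_le_mul_of_nonneg_left (huD l hl) (zpow_nonneg h4.le _)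
    have key := main_sum ((n:ℝ) / (k:ℝ)) hr a w ha0 hw0 hw Λ haw
    refine key.trans (le_of_eq ?_)
    congr 1
    apply Finset.sum_congr rfl
    intro l hl
    simp only [ha, hwdef]
    rw [Real.mul_rpow (zpow_nonneg h4.le _) (hD l)]
    have e1 : ((4:ℝ) ^ (l * (k:ℤ))) ^ ((n:ℝ) / (k:ℝ) - 1) = (4:ℝ) ^ (l * ((n:ℤ) - k)) := by
      rw [← Real.rpow_intCast, ← Real.rpow_intCast, ← Real.rpow_mul h4.le]
      congr 1
      push_cast
      field_simp
    have e2 : (4:ℝ) ^ (l * ((n:ℤ) + 1)) = (4:ℝ) ^ (l * ((k:ℤ) + 1)) * (4:ℝ) ^ (l * ((n:ℤ) - k)) := by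
      rw [← zpow_add₀ h4.ne']
      congr 1
      ring
    rw [e1, e2]
    ring

end Pool.Agent.W947.KP

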